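import Pool.Agent.Lib.EMU.S.Fin

/-!
# MP_9aab3b_gt, Q1: the coefficients of equivariant complex cobordism are not even

`Gp` is the free nilpotent group of class 2 and exponent 3 on three generators (order 729). The theorem states that `π_{-3}^G(MU) ≠ 0` for `G = Gp`.

The model of `π_{a-2b}^G(MU)` used in the statement (`MUcoeff.PiMU G a b`, file `Pool/Agent/Lib/EMU/S/Defs.lean`). tom Dieck's spectrum has the value
`MU(V) = Th(tautological bundle over Gr_{dim V}(V ⊕ U))` on a complex representation `V` (`U` a complete universe), and structure maps
`S^W ∧ MU(V) → MU(V ⊕ W)`, `(w, (E, e)) ↦ (E ⊕ W, e + w)`. So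
`π_{a-2b}^G(MU) = colim_V [S^{V ⊕ ℝ^a}, Th(Gr_{dim V + b}(V ⊕ U))]^G`
(based equivariant homotopy classes; take the spectrum at the representations `V ⊕ ℂ^b`). The sums `V_k` of `k` copies of the complex regular representation
are cofinal among the finite dimensional representations, `U` is the union of the `U_j`, `j` copies of the regular representation, and as spheres are compact one may
take the colimit over `j` outside: `PiMU G a b` is the colimit over `k, j` of the sets of based equivariant homotopy classes
`[S^{V_k ⊕ ℝ^a}, Th(Gr_{dim V_k + b}(V_k ⊕ U_j))]^G`. Grassmannians are modelled by hermitian idempotent matrices, the Thom space is the one point compactification of the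
total space of the tautological bundle. Evenness of `π_*^G(MU)` would say that `PiMU G a b` has one element for all odd `a`.
-/

set_option autoImplicit false

namespace Pool.Agent.Results.MP_9aab3b_gt.NotEven

/-- `π_{-3}^G(MU) ≠ 0` for the group `G = Gp` of order 729: `π_{a-2b}` with `a = b = 3` has an element different from the class of the constant map. -/
theorem result : ∃ x : MUcoeff.PiMU EMU.Gp 3 3, x ≠ MUcoeff.zero EMU.Gp 3 3 :=
  EMU.exists_ne_zero_matrix

end Pool.Agent.Results.MP_9aab3b_gt.NotEven
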